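import Pool.Agent.QFano.PartC3

set_option autoImplicit false

/-!
# Diagonalisable groups of automorphisms of `q`-analogs of the Fano plane
-/

namespace Pool.Agent.Results.MP_b24993_co.DiagonalTypes

open Module Pool.Agent.QFano

/-- Let `D` be a `2-(7,3,1)_q` design on `V` and let `V` be the direct sum of the nonzero subspaces
`E i`, at least two, such that for all `i ≠ j` there is an automorphism of `D` which acts by a scalar
on every `E k`, with different scalars on `E i` and on `E j` (the joint eigenspaces of a
diagonalisable group of automorphisms have this property). Then there are two summands, of the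
dimensions `4, 3`, or four, of the dimensions `2, 2, 2, 1`, or seven, of dimension `1`. -/
theorem result {K V ι : Type*} [Field K] [Finite K] [AddCommGroup V] [Module K V]
    [Fintype ι] [DecidableEq ι] [Nontrivial ι] (D : Set (Submodule K V)) (hD : IsQFano D)
    (E : ι → Submodule K V) (hne : ∀ i, E i ≠ ⊥) (hint : DirectSum.IsInternal E)
    (hsep : ∀ i j, i ≠ j → ∃ (g : End K V) (c : ι → K), IsAut D g ∧
      (∀ k, ∀ v ∈ E k, g v = c k • v) ∧ c i ≠ c j) :
    (Fintype.card ι = 2 ∧ ∃ i, finrank K (E i) = 4 ∧ ∀ j, j ≠ i → finrank K (E j) = 3) ∨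
    (Fintype.card ι = 4 ∧ ∃ i, finrank K (E i) = 1 ∧ ∀ j, j ≠ i → finrank K (E j) = 2) ∨
    (Fintype.card ι = 7 ∧ ∀ i, finrank K (E i) = 1) := by
  have : FiniteDimensional K V := FiniteDimensional.of_finrank_pos (by rw [hD.dim]; norm_num)
  exact Sep.C ⟨hne, hint, hsep⟩ hD

end Pool.Agent.Results.MP_b24993_co.DiagonalTypes
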