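import Pool.Agent.QFano.All6

set_option autoImplicit false

/-!
# Automorphisms of prime order of `q`-analogs of the Fano plane
-/

namespace Pool.Agent.Results.MP_b24993_co.PrimeAutomorphisms

open Module Pool.Agent.QFano

/-- Let `D` be a `2-(7,3,1)_q` design on `V` and let `g` be an automorphism of `D` of prime order
`r`: an injective semilinear map which maps every block into a block, is not a scalar and has
`g ^ r` scalar. If `g` is linear, then it is a scalar times a unipotent map and `r` divides `q`
(`UnipType`: four Jordan types), or diagonalisable and `r` divides `q - 1` (`DiagType`: three types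
of eigenspaces), or it has no invariant subspace and `r` divides `1 + q + ... + q ^ 6`
(`SingerType`), or `r` is prime to `q (q - 1)` (`CoprimeType`: `q` has order `4`, `2`, `6` or `3`
modulo `r`). If `g` is not linear, then `q = q₀ ^ r` and the invariant blocks form a
`2-(7,3,1)_{q₀}` design on a subgeometry (`BaerType`). -/
theorem result {K V : Type*} [Field K] [Finite K] [AddCommGroup V] [Module K V]
    (D : Set (Submodule K V)) (hD : IsQFano D) {σ : K →+* K} (g : V →ₛₗ[σ] V)
    (hg : Function.Injective g) (hgD : ∀ U ∈ D, ∃ U' ∈ D, ∀ u ∈ U, g u ∈ U')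
    (hns : ∀ s : K, ∃ v, g v ≠ s • v) (r : ℕ) (hr : r.Prime) (c : K)
    (hgr : ∀ v, g^[r] v = c • v) :
    (σ = RingHom.id K ∧ ∃ f : End K V, (∀ v, f v = g v) ∧
      (UnipType f r ∨ DiagType f r ∨ SingerType f r ∨ CoprimeType D f r)) ∨
    (σ ≠ RingHom.id K ∧ BaerType D g r) := by
  have : FiniteDimensional K V := FiniteDimensional.of_finrank_pos (by rw [hD.dim]; norm_num)
  by_cases hσ : σ = RingHom.id K
  · left
    subst hσ
    refine ⟨rfl, g, fun v => rfl, ?_⟩
    have haut : IsAut D (g : End K V) := by
      refine ⟨hg, fun U hU => ?_⟩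
      obtain ⟨U', hU', hUU'⟩ := hgD U hU
      have h1 : U.map (g : End K V) = U' := by
        refine Submodule.eq_of_le_of_finrank_eq ?_ ?_
        · rintro _ ⟨u, hu, rfl⟩
          exact hUU' u hu
        · rw [hD.block U' hU', ← hD.block U hU]
          exact LinearEquiv.finrank_eq (Submodule.equivMapOfInjective (g : End K V) hg U).symm
      rw [h1]
      exact hU'
    refine hD.allLinear haut hr (c := c) ?_ ?_
    · ext v
      rw [Module.End.pow_apply, Module.algebraMap_end_apply]
      exact hgr v
    · intro s h0
      obtain ⟨v, hv⟩ := hns s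
      apply hv
      have h1 := LinearMap.congr_fun h0 v
      rw [Module.algebraMap_end_apply] at h1
      exact h1
  · exact Or.inr ⟨hσ, hD.baer g hg hgD hr hgr hσ⟩

end Pool.Agent.Results.MP_b24993_co.PrimeAutomorphisms
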