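import Pool.Agent.QFano.PartE5

set_option autoImplicit false

/-!
# Designs invariant under the normaliser of a Singer cycle
-/

namespace Pool.Agent.Results.MP_b24993_co.SingerNormalizer

open Module Pool.Agent.QFano

/-- Let `F` be an extension of degree `7` of the field `K` with `q` elements. For `q = 2, 4` modulo
`7` no `2-(7,3,1)_q` design on `F` is invariant under `x ↦ x ^ q`. For `q = 0, 6` modulo `7` no such
design is invariant under `x ↦ x ^ q` and under all multiplications by nonzero elements of `F`. -/
theorem result {K F : Type} [Field K] [Fintype K] [Field F] [Algebra K F]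
    (D : Set (Submodule K F)) (hD : IsQFano D)
    (hfrob : ∀ U ∈ D, U.map (FiniteField.frobeniusAlgHom K F).toLinearMap ∈ D) :
    ¬ (Fintype.card K % 7 = 2 ∨ Fintype.card K % 7 = 4) ∧
    ((∀ z : F, z ≠ 0 → ∀ U ∈ D, U.map (LinearMap.mulLeft K z) ∈ D) →
      ¬ (Fintype.card K % 7 = 0 ∨ Fintype.card K % 7 = 6)) := by
  have : FiniteDimensional K F := FiniteDimensional.of_finrank_pos (by rw [hD.dim]; norm_num)
  have hc : Nat.card K = Fintype.card K := Nat.card_eq_fintype_card
  refine ⟨fun h => hD.no_singer24 hfrob (by rwa [hc]), fun hS h => ?_⟩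
  rcases h with h | h
  · exact hD.no_singer0 hS hfrob (by rwa [hc])
  · exact hD.no_singer6 hS hfrob (by rwa [hc])

end Pool.Agent.Results.MP_b24993_co.SingerNormalizer
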