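import Pool.Agent.QFano.PartB

set_option autoImplicit false

/-!
# Unipotent automorphisms of `q`-analogs of the Fano plane
-/

namespace Pool.Agent.Results.MP_b24993_co.UnipotentTypes

open Module Pool.Agent.QFano

/-- Let `D` be a `2-(7,3,1)_q` design on `V` and let `g` be an automorphism of `D` such that
`N = g - s` is nilpotent for a scalar `s`, `N ≠ 0`. Then the dimensions of the kernels of the powers
`N ^ i`, `i = 1, 2, ...`, are `4, 7`, or `2, 4, 6, 7`, or `2, 3, 4, 5, 6, 7`, or
`1, 2, 3, 4, 5, 6, 7` (and `7` from then on): the Jordan type of `g` is `(2, 2, 2, 1)`, `(4, 3)`,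
`(6, 1)` or `(7)`. -/
theorem result {K V : Type*} [Field K] [Finite K] [AddCommGroup V] [Module K V]
    (D : Set (Submodule K V)) (hD : IsQFano D) (g : End K V) (hg : IsAut D g) (s : K)
    (hN : IsNilpotent (g - algebraMap K (End K V) s)) (hne : g ≠ algebraMap K (End K V) s) :
    (∀ i : ℕ, finrank K (LinearMap.ker ((g - algebraMap K (End K V) s) ^ i)) = min 7 (4 * i)) ∨
    (∀ i : ℕ, finrank K (LinearMap.ker ((g - algebraMap K (End K V) s) ^ i)) = min 7 (2 * i)) ∨
    (∀ i : ℕ, 0 < i →
      finrank K (LinearMap.ker ((g - algebraMap K (End K V) s) ^ i)) = min 7 (i + 1)) ∨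
    (∀ i : ℕ, finrank K (LinearMap.ker ((g - algebraMap K (End K V) s) ^ i)) = min 7 i) := by
  have : FiniteDimensional K V := FiniteDimensional.of_finrank_pos (by rw [hD.dim]; norm_num)
  have hne' : ∃ v, g v ≠ s • v := by
    by_contra hcon
    push Not at hcon
    apply hne
    ext v
    rw [hcon v, Module.algebraMap_end_apply]
  rcases hD.B hg hN hne' with h | h | h | h
  · exact Or.inl h
  · exact Or.inr (Or.inl h)
  · refine Or.inr (Or.inr (Or.inl fun i hi => ?_))
    obtain ⟨j, rfl⟩ : ∃ j, i = j + 1 := ⟨i - 1, by omega⟩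
    exact h j
  · exact Or.inr (Or.inr (Or.inr h))

end Pool.Agent.Results.MP_b24993_co.UnipotentTypes
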